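import Pool.Agent.Helper28_TP.DyS
import Pool.Agent.Helper28_TP.Inst

/-!
# Module LOC: local events of positive probability occur at a positive fraction of the times
-/

set_option autoImplicit false

namespace Pool.Agent.TP.H94

open MeasureTheory ProbabilityTheory

variable {k : ℕ}

theorem pos_glue {T i : ℕ} (h : i ≤ T) (x : Cf k × Cf k) (v : Pt k × ℕ) :
    pos (glue T x) i v = pos x.1 i v := by
  unfold pos walk glue
  funext a
  simp only
  congr 1
  refine Finset.sum_congr rfl fun j hj => ?_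
  rw [if_pos (lt_of_lt_of_le (Finset.mem_range.1 hj) h)]

theorem occ_glue {T i : ℕ} (hi : i ≤ T) (h : ℝ) (w : Sp k) (x : Cf k × Cf k) :
    occ h w i (glue T x) = occ h w i x.1 := by
  ext c
  unfold occ
  constructor
  · rintro ⟨v, h1, h2⟩
    rw [pos_glue hi] at h2
    exact ⟨v, h1, h2⟩
  · rintro ⟨v, h1, h2⟩
    refine ⟨v, h1, ?_⟩
    rw [pos_glue hi]
    exact h2

theorem many_glue {T i : ℕ} (hi : i ≤ T) (y : Sp k) (κ : ℝ) (x : Cf k × Cf k) (M : ℕ) :
    many y κ i (glue T x) M ↔ many y κ i x.1 M := by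
  unfold many
  constructor
  · rintro ⟨F, h1, h2⟩
    refine ⟨F, h1, fun v hv => ?_⟩
    have := h2 v hv
    rw [pos_glue hi] at this
    exact this
  · rintro ⟨F, h1, h2⟩
    refine ⟨F, h1, fun v hv => ?_⟩
    rw [pos_glue hi]
    exact h2 v hv

theorem card_bx (x : Pt k) (n : ℕ) : (bx x n).card = (2 * n + 1) ^ (k + 2) := by
  unfold bx
  rw [Pi.card_Icc]
  have : ∀ i : Fin (k + 2), (Finset.Icc (x i - (n : ℤ)) (x i + n)).card = 2 * n + 1 := by
    intro i
    rw [Int.card_Icc]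
    have : x i + (n : ℤ) + 1 - (x i - n) = ((2 * n + 1 : ℕ) : ℤ) := by push_cast; ring
    rw [this, Int.toNat_natCast]
  rw [Finset.prod_congr rfl fun i _ => this i, Finset.prod_const, Finset.card_univ,
    Fintype.card_fin]

theorem exp_seventh : Real.exp (-(1 / 7 : ℝ)) ≤ 43 / 49 := by
  have h1 := Real.add_one_le_exp (1 / 7 : ℝ)
  rw [Real.exp_neg]
  have h2 : (49 / 43 : ℝ) ≤ Real.exp (1 / 7) := le_trans (by norm_num) h1
  rw [inv_le_comm₀ (Real.exp_pos _) (by norm_num)]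
  exact le_trans (by norm_num) h2

/-- The numerical inequality of one step. -/
theorem step_num {c₁ x : ℝ} (h0 : 0 < c₁) (hx : x ≤ 1 - c₁ + c₁ / 8) :
    Real.exp (1 / 7 * (3 / 4 * c₁)) * x + Real.exp (1 / 7 * (3 / 4 * c₁ - 1)) * (1 - x) ≤ 1 := by
  set ρ : ℝ := 7 / 8 * c₁ with hρ
  have e1 : Real.exp (1 / 7 * (3 / 4 * c₁ - 1)) =
      Real.exp (1 / 7 * (3 / 4 * c₁)) * Real.exp (-(1 / 7 : ℝ)) := by
    rw [← Real.exp_add]; ring_nf
  rw [e1]
  have h2 := exp_seventh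
  have h3 := Real.exp_pos (-(1 / 7 : ℝ))
  set t := Real.exp (-(1 / 7 : ℝ)) with ht
  have h4 : x + t * (1 - x) ≤ 1 - ρ * (1 - t) := by nlinarith
  have h5 : 1 - ρ * (1 - t) ≤ 1 - ρ * (6 / 49) := by nlinarith
  have h6 : 1 - ρ * (6 / 49) ≤ Real.exp (-(ρ * (6 / 49))) := by
    have := Real.add_one_le_exp (-(ρ * (6 / 49)))
    linarith
  have h7 : -(ρ * (6 / 49)) = -(1 / 7 * (3 / 4 * c₁)) := by rw [hρ]; ring
  rw [h7] at h6
  have h8 := Real.exp_pos (1 / 7 * (3 / 4 * c₁))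
  calc Real.exp (1 / 7 * (3 / 4 * c₁)) * x + Real.exp (1 / 7 * (3 / 4 * c₁)) * t * (1 - x)
      = Real.exp (1 / 7 * (3 / 4 * c₁)) * (x + t * (1 - x)) := by ring
    _ ≤ Real.exp (1 / 7 * (3 / 4 * c₁)) * Real.exp (-(1 / 7 * (3 / 4 * c₁))) :=
        mul_le_mul_of_nonneg_left (by linarith) h8.le
    _ = 1 := by rw [← Real.exp_add]; simp

open Classical in
/-- The exponent of one step. -/
noncomputable def gq (c₁ : ℝ) (D S : Set (Cf k)) (ω : Cf k) : ℝ :=
  if ω ∈ D then (if ω ∈ S then 3 / 4 * c₁ - 1 else 3 / 4 * c₁) else 0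

theorem measurable_gq {c₁ : ℝ} {D S : Set (Cf k)} (hD : MeasurableSet D) (hS : MeasurableSet S) :
    Measurable (gq c₁ D S) := by
  classical
  unfold gq
  exact Measurable.ite hD (Measurable.ite hS measurable_const measurable_const) measurable_const

/-- The supermartingale. -/
theorem super (hg : GlueStmt) {lam s : ℝ} {c₁ : ℝ} (h0 : 0 < c₁)
    (D S : ℕ → Set (Cf k)) (T : ℕ → ℕ) (Q : Finset ℕ)
    (hD : ∀ q ∈ Q, MeasurableSet (D q)) (hS : ∀ q ∈ Q, MeasurableSet (S q))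
    (hDT : ∀ q ∈ Q, ∀ t, T q ≤ t → ∀ x : Cf k × Cf k, glue t x ∈ D q ↔ x.1 ∈ D q)
    (hST : ∀ q ∈ Q, ∀ q' ∈ Q, q < q' → ∀ x : Cf k × Cf k, glue (T q') x ∈ S q ↔ x.1 ∈ S q)
    (hT : Monotone T)
    (hb : ∀ q ∈ Q, ∀ ω₁ ∈ D q, (confLaw k lam s).real {ω₂ | glue (T q) (ω₁, ω₂) ∉ S q} ≤
      1 - c₁ + c₁ / 8) (n : ℕ) :
    ∫⁻ ω, ∏ q ∈ Q.filter (fun q => q < n),
      ENNReal.ofReal (Real.exp (1 / 7 * gq c₁ (D q) (S q) ω)) ∂(confLaw k lam s) ≤ 1 := by
  classical
  induction n with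
  | zero => simp
  | succ n ih =>
    by_cases hn : n ∈ Q
    · have e1 : Q.filter (fun q => q < n + 1) = insert n (Q.filter (fun q => q < n)) := by
        ext q
        simp only [Finset.mem_filter, Finset.mem_insert]
        constructor
        · rintro ⟨h2, h3⟩
          rcases Nat.lt_succ_iff_lt_or_eq.1 h3 with h4 | h4
          · exact Or.inr ⟨h2, h4⟩
          · exact Or.inl h4
        · rintro (rfl | ⟨h2, h3⟩)
          · exact ⟨hn, Nat.lt_succ_self _⟩
          · exact ⟨h2, Nat.lt_succ_of_lt h3⟩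
      have e2 : n ∉ Q.filter (fun q => q < n) := by simp
      rw [e1]
      simp only [Finset.prod_insert e2]
      set f : ℕ → Cf k → ENNReal := fun q ω =>
        ENNReal.ofReal (Real.exp (1 / 7 * gq c₁ (D q) (S q) ω)) with hf
      have hfm : ∀ q ∈ Q, Measurable (f q) := fun q hq =>
        ENNReal.measurable_ofReal.comp (Real.measurable_exp.comp
          ((measurable_gq (hD q hq) (hS q hq)).const_mul _))
      have hgl := hg k lam s (T n)
      have hpm : Measurable (fun ω => ∏ q ∈ Q.filter (fun q => q < n), f q ω) :=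
        Finset.measurable_prod _ fun q hq => hfm q (Finset.mem_filter.1 hq).1
      have hFm : Measurable (fun ω => f n ω * ∏ q ∈ Q.filter (fun q => q < n), f q ω) :=
        (hfm n hn).mul hpm
      change ∫⁻ ω, f n ω * ∏ q ∈ Q.filter (fun q => q < n), f q ω ∂(confLaw k lam s) ≤ 1
      rw [← hgl.lintegral_comp hFm]
      have hFm2 : Measurable (fun a : Cf k × Cf k => f n (glue (T n) a) *
          ∏ q ∈ Q.filter (fun q => q < n), f q (glue (T n) a)) := hFm.comp hgl.measurable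
      rw [lintegral_prod _ hFm2.aemeasurable]
      refine le_trans (lintegral_mono fun ω₁ => ?_) ih
      -- the factors of the past
      have h2 : ∀ ω₂, ∏ q ∈ Q.filter (fun q => q < n), f q (glue (T n) (ω₁, ω₂)) =
          ∏ q ∈ Q.filter (fun q => q < n), f q ω₁ := by
        intro ω₂
        refine Finset.prod_congr rfl fun q hq => ?_
        obtain ⟨hq1, hq2⟩ := Finset.mem_filter.1 hq
        simp only [hf, gq, hDT q hq1 (T n) (hT hq2.le) (ω₁, ω₂), hST q hq1 n hn hq2 (ω₁, ω₂)]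
      simp only [h2]
      have hFm3 : Measurable (fun y : Cf k => f n (glue (T n) (ω₁, y))) :=
        (hfm n hn).comp (hgl.measurable.comp measurable_prodMk_left)
      rw [lintegral_mul_const _ hFm3]
      refine le_trans (mul_le_mul' ?_ le_rfl) (le_of_eq (one_mul _))
      -- the new factor
      have h3 : ∀ ω₂, glue (T n) (ω₁, ω₂) ∈ D n ↔ ω₁ ∈ D n := fun ω₂ =>
        hDT n hn (T n) le_rfl (ω₁, ω₂)
      by_cases hω : ω₁ ∈ D n
      · set S' : Set (Cf k) := {ω₂ | glue (T n) (ω₁, ω₂) ∈ S n} with hS'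
        have hS'm : MeasurableSet S' := (hgl.measurable.comp measurable_prodMk_left) (hS n hn)
        set x : ℝ := (confLaw k lam s).real S'ᶜ with hx
        have h4 : x ≤ 1 - c₁ + c₁ / 8 := hb n hn ω₁ hω
        have h5 : (confLaw k lam s).real S' = 1 - x := by
          rw [hx, probReal_compl_eq_one_sub hS'm]; ring
        have h6 : ∀ ω₂, f n (glue (T n) (ω₁, ω₂)) =
            S'.indicator (fun _ => ENNReal.ofReal (Real.exp (1 / 7 * (3 / 4 * c₁ - 1)))) ω₂ +
            S'ᶜ.indicator (fun _ => ENNReal.ofReal (Real.exp (1 / 7 * (3 / 4 * c₁)))) ω₂ := by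
          intro ω₂
          simp only [hf, gq, h3 ω₂, if_pos hω]
          by_cases h7 : glue (T n) (ω₁, ω₂) ∈ S n
          · have h8 : ω₂ ∈ S' := h7
            have h9 : ω₂ ∉ S'ᶜ := fun h => h h8
            rw [if_pos h7, Set.indicator_of_mem h8, Set.indicator_of_notMem h9, add_zero]
          · have h8 : ω₂ ∉ S' := h7
            have h9 : ω₂ ∈ S'ᶜ := h8
            rw [if_neg h7, Set.indicator_of_notMem h8, Set.indicator_of_mem h9, zero_add]
        simp only [h6]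
        rw [lintegral_add_left (measurable_const.indicator hS'm), lintegral_indicator_const hS'm,
          lintegral_indicator_const hS'm.compl]
        have h7 : (confLaw k lam s) S' = ENNReal.ofReal (1 - x) := by
          rw [← h5, ofReal_measureReal]
        have h8 : (confLaw k lam s) S'ᶜ = ENNReal.ofReal x := by
          rw [hx, ofReal_measureReal]
        have h9 : 0 ≤ x := measureReal_nonneg
        have h10 : 0 ≤ 1 - x := by rw [← h5]; exact measureReal_nonneg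
        rw [h7, h8, ← ENNReal.ofReal_mul (Real.exp_pos _).le,
          ← ENNReal.ofReal_mul (Real.exp_pos _).le,
          ← ENNReal.ofReal_add (mul_nonneg (Real.exp_pos _).le h10)
            (mul_nonneg (Real.exp_pos _).le h9)]
        refine ENNReal.ofReal_le_one.2 ?_
        have := step_num h0 h4
        linarith
      · have h6 : ∀ ω₂, f n (glue (T n) (ω₁, ω₂)) = 1 := by
          intro ω₂
          simp only [hf, gq, h3 ω₂, if_neg hω]
          simp
        simp only [h6, lintegral_one, measure_univ, le_refl]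
    · have e1 : Q.filter (fun q => q < n + 1) = Q.filter (fun q => q < n) := by
        ext q
        simp only [Finset.mem_filter]
        constructor
        · rintro ⟨h2, h3⟩
          rcases Nat.lt_succ_iff_lt_or_eq.1 h3 with h4 | h4
          · exact ⟨h2, h4⟩
          · exact absurd (h4 ▸ h2) hn
        · rintro ⟨h2, h3⟩
          exact ⟨h2, Nat.lt_succ_of_lt h3⟩
      rw [e1]
      exact ih

theorem Lw_ge_one (k A : ℕ) : 1 ≤ Lw k A := by
  unfold Lw
  split_ifs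
  · have : (0 : ℝ) ≤ A := Nat.cast_nonneg A
    linarith
  · exact le_rfl

open Classical in
/-- **LOC.** -/
theorem loc (hmeas : MeasStmt) (hdens : DensStmt) (hglue : GlueStmt) (hrf : RfStmt) :
    LocStmt := by
  intro k lam s h p hlam hs hh hp0 hp1 c₁ R hc0 hc1
  obtain ⟨ε, κ₀, c₃, Cm, hε0, hε1, hκ0, hκs, hc3, hRF⟩ := hrf k lam s h p hlam hs hh hp0 hp1
  set N₀ : ℕ := ⌈h * (R + 1) / κ₀⌉₊ + Cm with hN₀
  set K : ℝ := (2 * (N₀ : ℝ) + 1) ^ (k + 2) with hK
  have hKpos : 0 < K := by positivity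
  obtain ⟨C₀', hC₀', hD⟩ := hdens k lam s ε κ₀ hlam hs hε0 hε1 hκ0 hκs K (1 / 16) (by norm_num)
  have hκk : 0 < κ₀ ^ (k + 2) := by positivity
  obtain ⟨A₀, hA₀⟩ := pow_unbounded_of_one_lt (224 / c₁) (one_lt_two (α := ℝ))
  refine ⟨max C₀' (max 1 (8 * K / (c₁ * c₃ * κ₀ ^ (k + 2)))), c₁ / 224, A₀,
    lt_of_lt_of_le hC₀' (le_max_left _ _), by positivity, ?_⟩
  intro A τ w Q 𝒰 hA hτ hQ hU
  have hL := Lw_ge_one k A
  have hL0 : 0 < Lw k A := by linarith
  have hτ1 : C₀' * Lw k A ≤ τ := le_trans (mul_le_mul_of_nonneg_right (le_max_left _ _) hL0.le) hτ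
  have hτ2 : (1 : ℝ) ≤ τ := by
    refine le_trans ?_ hτ
    have h1 : (1 : ℝ) ≤ max C₀' (max 1 (8 * K / (c₁ * c₃ * κ₀ ^ (k + 2)))) :=
      le_trans (le_max_left _ _) (le_max_right _ _)
    nlinarith
  have hτ3 : 8 * K / (c₁ * c₃ * κ₀ ^ (k + 2)) ≤ τ := by
    refine le_trans ?_ hτ
    have h1 : 8 * K / (c₁ * c₃ * κ₀ ^ (k + 2)) ≤
        max C₀' (max 1 (8 * K / (c₁ * c₃ * κ₀ ^ (k + 2)))) :=
      le_trans (le_max_right _ _) (le_max_right _ _)
    have h2 : 0 ≤ max C₀' (max 1 (8 * K / (c₁ * c₃ * κ₀ ^ (k + 2)))) :=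
      le_trans zero_le_one (le_trans (le_max_left _ _) (le_max_right _ _))
    nlinarith
  have hτN : 1 ≤ τ := by exact_mod_cast hτ2
  -- the side of the boxes
  set κ : ℝ := side κ₀ 0 τ with hκ
  have hκe : κ = κ₀ * Real.sqrt τ := by rw [hκ]; unfold side; simp
  have hsq1 : 1 ≤ Real.sqrt τ := by rw [Real.one_le_sqrt]; exact hτ2
  have hκ1 : κ₀ ≤ κ := by rw [hκe]; nlinarith
  have hκpos : 0 < κ := lt_of_lt_of_le hκ0 hκ1
  set n₀ : ℕ := ⌈h * (R + 1) / κ⌉₊ + Cm with hn₀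
  have hn : n₀ ≤ N₀ := by
    rw [hn₀, hN₀]
    refine Nat.add_le_add_right (Nat.ceil_mono ?_) _
    exact div_le_div_of_nonneg_left (by positivity) hκ0 hκ1
  have hnK : (2 * (n₀ : ℝ) + 1) ^ (k + 2) ≤ K := by
    rw [hK]
    have : (n₀ : ℝ) ≤ N₀ := by exact_mod_cast hn
    exact pow_le_pow_left₀ (by positivity) (by linarith) _
  have hκbig : κ₀ ^ (k + 2) * τ ≤ κ ^ (k + 2) := by
    rw [hκe, mul_pow]
    refine mul_le_mul_of_nonneg_left ?_ hκk.le
    calc (τ : ℝ) = Real.sqrt τ ^ 2 := (Real.sq_sqrt (by positivity)).symm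
      _ ≤ Real.sqrt τ ^ (k + 2) := pow_le_pow_right₀ hsq1 (by omega)
  have hsmall : (2 * (n₀ : ℝ) + 1) ^ (k + 2) * Real.exp (-(c₃ * κ ^ (k + 2))) ≤ c₁ / 8 := by
    have h1 : c₃ * κ₀ ^ (k + 2) * τ ≤ c₃ * κ ^ (k + 2) := by
      have := mul_le_mul_of_nonneg_left hκbig hc3.le
      linarith
    have h2 : Real.exp (-(c₃ * κ ^ (k + 2))) ≤ (c₃ * κ₀ ^ (k + 2) * τ)⁻¹ := by
      rw [Real.exp_neg]
      refine inv_anti₀ (by positivity) ?_
      have := Real.add_one_le_exp (c₃ * κ ^ (k + 2))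
      linarith
    have h3 : 8 * K ≤ c₁ * (c₃ * κ₀ ^ (k + 2) * τ) := by
      rw [div_le_iff₀ (by positivity)] at hτ3
      linarith
    calc (2 * (n₀ : ℝ) + 1) ^ (k + 2) * Real.exp (-(c₃ * κ ^ (k + 2)))
        ≤ K * (c₃ * κ₀ ^ (k + 2) * τ)⁻¹ :=
          mul_le_mul hnK h2 (Real.exp_pos _).le hKpos.le
      _ ≤ c₁ / 8 := by
          have h4 : 0 < c₃ * κ₀ ^ (k + 2) * τ := by positivity
          rw [← div_eq_mul_inv, div_le_iff₀ h4]
          linarith
  -- dense and successful configurations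
  set P := confLaw k lam s with hP
  set T : ℕ → ℕ := fun q => (q - 1) * τ with hT
  set D : ℕ → Set (Cf k) := fun q => {ω | ∀ j ∈ bx (0 : Pt k) n₀,
    many (fun a => w q a + κ * j a) κ (T q) ω ⌈(1 - ε) * lam * κ ^ (k + 2)⌉₊} with hDdef
  set S : ℕ → Set (Cf k) := fun q => {ω | 𝒰 q (occ h (w q) (q * τ) ω)} with hSdef
  have hDm : ∀ q ∈ Q, MeasurableSet (D q) := by
    intro q _
    have : D q = ⋂ j ∈ bx (0 : Pt k) n₀, {ω |
        many (fun a => w q a + κ * j a) κ (T q) ω ⌈(1 - ε) * lam * κ ^ (k + 2)⌉₊} := by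
      ext ω; simp [hDdef]
    rw [this]
    exact Finset.measurableSet_biInter _ fun j _ => (hmeas k).2.1 _ _ _ _
  have hSm : ∀ q ∈ Q, MeasurableSet (S q) := fun q hq =>
    (hmeas k).2.2.1 h (w q) (q * τ) R (𝒰 q) (hU q hq).1
  have hTm : Monotone T := fun a b hab => Nat.mul_le_mul_right _ (Nat.sub_le_sub_right hab 1)
  have hq1 : ∀ q ∈ Q, 1 ≤ q := fun q hq =>
    le_trans Nat.one_le_two_pow (Finset.mem_Ico.1 (hQ hq)).1
  have hDT : ∀ q ∈ Q, ∀ t, T q ≤ t → ∀ x : Cf k × Cf k, glue t x ∈ D q ↔ x.1 ∈ D q := by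
    intro q _ t ht x
    change (∀ j ∈ bx (0 : Pt k) n₀, _) ↔ (∀ j ∈ bx (0 : Pt k) n₀, _)
    exact forall_congr' fun j => forall_congr' fun _ => many_glue ht _ _ _ _
  have hST : ∀ q ∈ Q, ∀ q' ∈ Q, q < q' → ∀ x : Cf k × Cf k,
      glue (T q') x ∈ S q ↔ x.1 ∈ S q := by
    intro q _ q' _ hqq x
    change 𝒰 q (occ h (w q) (q * τ) (glue (T q') x)) ↔ 𝒰 q (occ h (w q) (q * τ) x.1)
    rw [occ_glue (T := T q')]
    exact Nat.mul_le_mul_right _ (by omega)
  have hb : ∀ q ∈ Q, ∀ ω₁ ∈ D q, P.real {ω₂ | glue (T q) (ω₁, ω₂) ∉ S q} ≤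
      1 - c₁ + c₁ / 8 := by
    intro q hq ω₁ hω₁
    have h1 := hRF (T q) τ R κ (w q) ω₁ hτN hκpos hκe.le (by rw [hκe]; nlinarith) hω₁ (𝒰 q)
      (hU q hq).1
    have h2 : T q + τ = q * τ := by
      have := hq1 q hq
      obtain ⟨q', rfl⟩ : ∃ q', q = q' + 1 := ⟨q - 1, by omega⟩
      simp only [hT, Nat.add_sub_cancel]
      ring
    rw [h2] at h1
    refine le_trans h1 ?_
    have h3 : PS (bx (0 : Pt k) R) (fun _ => p) (fun A => ¬ 𝒰 q ↑A) ≤ 1 - c₁ := by
      rw [PS_not]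
      linarith [(hU q hq).2]
    linarith [hsmall]
  -- the martingale bound
  have hsup : ∫⁻ ω, ∏ q ∈ Q, ENNReal.ofReal (Real.exp (1 / 7 * gq c₁ (D q) (S q) ω)) ∂P ≤ 1 := by
    have h1 := super hglue (lam := lam) (s := s) hc0 D S T Q hDm hSm hDT hST hTm hb
      (2 ^ (A + 1))
    have h2 : Q.filter (fun q => q < 2 ^ (A + 1)) = Q :=
      Finset.filter_true_of_mem fun q hq => (Finset.mem_Ico.1 (hQ hq)).2
    rw [h2] at h1
    exact h1
  set y : ℝ := c₁ / 112 * 2 ^ A with hy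
  set B₁ : Set (Cf k) := {ω | ENNReal.ofReal (Real.exp y) ≤
    ∏ q ∈ Q, ENNReal.ofReal (Real.exp (1 / 7 * gq c₁ (D q) (S q) ω))} with hB₁
  have hB₁b : P.real B₁ ≤ Real.exp (-y) := by
    have hfm : ∀ q ∈ Q, Measurable (fun ω : Cf k =>
        ENNReal.ofReal (Real.exp (1 / 7 * gq c₁ (D q) (S q) ω))) := fun q hq =>
      ENNReal.measurable_ofReal.comp (Real.measurable_exp.comp
        ((measurable_gq (hDm q hq) (hSm q hq)).const_mul _))
    have h1 := mul_meas_ge_le_lintegral (μ := P) (Finset.measurable_prod Q hfm)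
      (ENNReal.ofReal (Real.exp y))
    have h2 : ENNReal.ofReal (Real.exp y) * P B₁ ≤ 1 := by
      refine le_trans ?_ hsup
      convert h1 using 3
    have h3 : Real.exp y * P.real B₁ ≤ 1 := by
      have := ENNReal.toReal_mono ENNReal.one_ne_top h2
      rw [ENNReal.toReal_mul, ENNReal.toReal_ofReal (Real.exp_pos _).le,
        ENNReal.toReal_one] at this
      exact this
    rw [Real.exp_neg, ← one_div, le_div_iff₀ (Real.exp_pos _)]
    linarith
  -- sparse boxes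
  set Bo : ℕ → ℕ → Finset (Sp k) := fun a j => if a = 0 then
    (bx (0 : Pt k) n₀).image (fun j' : Pt k => (fun a' => w j a' + κ * j' a' : Sp k)) else ∅
    with hBo
  have hBoc : ∀ a j, ((Bo a j).card : ℝ) ≤ Real.exp (K * 2 ^ a) := by
    intro a j
    rw [hBo]
    simp only
    split_ifs with ha
    · have h1 : ((bx (0 : Pt k) n₀).image
          (fun j' : Pt k => (fun a' => w j a' + κ * j' a' : Sp k))).card ≤
          (2 * n₀ + 1) ^ (k + 2) := by
        refine le_trans Finset.card_image_le ?_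
        rw [card_bx]
      have h2 : (((bx (0 : Pt k) n₀).image
          (fun j' : Pt k => (fun a' => w j a' + κ * j' a' : Sp k))).card : ℝ) ≤
          (2 * (n₀ : ℝ) + 1) ^ (k + 2) := by exact_mod_cast h1
      have h3 := Real.add_one_le_exp K
      rw [ha, pow_zero, mul_one]
      linarith
    · simp only [Finset.card_empty, Nat.cast_zero]
      exact (Real.exp_pos _).le
  set B₂ : Set (Cf k) := {ω | 1 / 16 * 2 ^ A ≤ (((Finset.Ico (2 ^ A) (2 ^ (A + 1))).filter
    (fun q => ∃ a ≤ A, ∃ y ∈ Bo a (q / 2 ^ a), spa lam ε κ₀ τ a (q / 2 ^ a) y ω)).card : ℝ)}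
    with hB₂
  have hB₂b : P.real B₂ ≤ Real.exp (-(4 * 2 ^ A)) := by
    have h1 := hD A τ hτ1 Bo hBoc
    have h2 := ENNReal.toReal_mono ENNReal.ofReal_ne_top h1
    rw [ENNReal.toReal_ofReal (Real.exp_pos _).le] at h2
    exact h2
  -- the event is contained in the union
  have hsub : {ω : Cf k | ((Q.filter (fun q => 𝒰 q (occ h (w q) (q * τ) ω))).card : ℝ) ≤
      c₁ / 2 * Q.card - c₁ / 8 * 2 ^ A} ⊆ B₁ ∪ B₂ := by
    intro ω hω
    by_cases h2 : ω ∈ B₂
    · exact Or.inr h2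
    left
    have h2' : (((Finset.Ico (2 ^ A) (2 ^ (A + 1))).filter
        (fun q => ∃ a ≤ A, ∃ y ∈ Bo a (q / 2 ^ a), spa lam ε κ₀ τ a (q / 2 ^ a) y ω)).card : ℝ)
        < 1 / 16 * 2 ^ A := not_le.1 h2
    have hω' : ((Q.filter (fun q => ω ∈ S q)).card : ℝ) ≤
      c₁ / 2 * Q.card - c₁ / 8 * 2 ^ A := hω
    -- few times are not dense
    have h3 : ((Q.filter (fun q => ω ∉ D q)).card : ℝ) < 1 / 16 * 2 ^ A := by
      refine lt_of_le_of_lt ?_ h2'
      have : (Q.filter (fun q => ω ∉ D q)).card ≤ ((Finset.Ico (2 ^ A) (2 ^ (A + 1))).filter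
          (fun q => ∃ a ≤ A, ∃ y ∈ Bo a (q / 2 ^ a), spa lam ε κ₀ τ a (q / 2 ^ a) y ω)).card := by
        refine Finset.card_le_card fun q hq => ?_
        obtain ⟨hqQ, hqD⟩ := Finset.mem_filter.1 hq
        rw [Finset.mem_filter]
        refine ⟨hQ hqQ, 0, Nat.zero_le _, ?_⟩
        have h4 : ∃ j ∈ bx (0 : Pt k) n₀,
            ¬ many (fun a => w q a + κ * j a) κ (T q) ω ⌈(1 - ε) * lam * κ ^ (k + 2)⌉₊ := by
          by_contra hcon
          push Not at hcon
          exact hqD hcon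
        obtain ⟨j, hj, hjm⟩ := h4
        refine ⟨fun a => w q a + κ * j a, ?_, ?_⟩
        · rw [hBo]
          simp only [if_true, pow_zero, Nat.div_one]
          exact Finset.mem_image.2 ⟨j, hj, rfl⟩
        · unfold spa
          simp only [pow_zero, Nat.div_one, mul_one]
          exact hjm
      exact_mod_cast this
    have h4 : ∑ q ∈ Q, gq c₁ (D q) (S q) ω = 3 / 4 * c₁ * (Q.filter (fun q => ω ∈ D q)).card -
        (Q.filter (fun q => ω ∈ D q ∧ ω ∈ S q)).card := by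
      have h5 : ∀ q ∈ Q, gq c₁ (D q) (S q) ω = (if ω ∈ D q then 3 / 4 * c₁ else 0) -
          (if ω ∈ D q ∧ ω ∈ S q then 1 else 0) := by
        intro q _
        unfold gq
        by_cases h6 : ω ∈ D q <;> by_cases h7 : ω ∈ S q <;> simp [h6, h7]
      rw [Finset.sum_congr rfl h5, Finset.sum_sub_distrib, ← Finset.sum_filter,
        Finset.sum_const, nsmul_eq_mul, Finset.sum_boole]
      ring
    have h5 : ((Q.filter (fun q => ω ∈ D q)).card : ℝ) =
        Q.card - (Q.filter (fun q => ω ∉ D q)).card := by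
      have := Finset.card_filter_add_card_filter_not (s := Q) (fun q => ω ∈ D q)
      have h6 : ((Q.filter (fun q => ω ∈ D q)).card : ℝ) +
        (Q.filter (fun q => ω ∉ D q)).card = Q.card := by exact_mod_cast this
      linarith
    have h6 : ((Q.filter (fun q => ω ∈ D q ∧ ω ∈ S q)).card : ℝ) ≤
        (Q.filter (fun q => ω ∈ S q)).card := by
      have : (Q.filter (fun q => ω ∈ D q ∧ ω ∈ S q)).card ≤
          (Q.filter (fun q => ω ∈ S q)).card :=
        Finset.card_le_card fun q hq => by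
          rw [Finset.mem_filter] at hq ⊢
          exact ⟨hq.1, hq.2.2⟩
      exact_mod_cast this
    have h7 : c₁ / 16 * 2 ^ A ≤ ∑ q ∈ Q, gq c₁ (D q) (S q) ω := by
      rw [h4, h5]
      have h8 : (0 : ℝ) < 2 ^ A := by positivity
      have h9 : 3 / 4 * c₁ * ((Q.filter (fun q => ω ∉ D q)).card : ℝ) ≤
          3 / 4 * c₁ * (1 / 16 * 2 ^ A) := mul_le_mul_of_nonneg_left h3.le (by positivity)
      have h10 : (0 : ℝ) ≤ (Q.card : ℝ) * c₁ := by positivity
      nlinarith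
    change ENNReal.ofReal (Real.exp y) ≤
      ∏ q ∈ Q, ENNReal.ofReal (Real.exp (1 / 7 * gq c₁ (D q) (S q) ω))
    rw [← ENNReal.ofReal_prod_of_nonneg (fun q _ => (Real.exp_pos _).le), ← Real.exp_sum]
    refine ENNReal.ofReal_le_ofReal (Real.exp_le_exp.2 ?_)
    rw [← Finset.mul_sum, hy]
    linarith
  have h1 : P.real {ω : Cf k | ((Q.filter (fun q => 𝒰 q (occ h (w q) (q * τ) ω))).card : ℝ) ≤
      c₁ / 2 * Q.card - c₁ / 8 * 2 ^ A} ≤ Real.exp (-y) + Real.exp (-(4 * 2 ^ A)) := by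
    refine le_trans (measureReal_mono hsub) (le_trans (measureReal_union_le _ _) ?_)
    exact add_le_add hB₁b hB₂b
  refine le_trans h1 ?_
  have h2A : (2 : ℝ) ^ A₀ ≤ 2 ^ A := pow_le_pow_right₀ one_le_two hA
  have hpos : (0 : ℝ) < 2 ^ A := by positivity
  have h3 : Real.exp (-(4 * 2 ^ A)) ≤ Real.exp (-y) := by
    refine Real.exp_le_exp.2 ?_
    rw [hy]
    nlinarith
  have h4 : 1 ≤ c₁ / 224 * 2 ^ A := by
    have : 224 / c₁ < 2 ^ A := lt_of_lt_of_le hA₀ h2A
    rw [div_lt_iff₀ hc0] at this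
    linarith
  have h5 : 2 ≤ Real.exp (c₁ / 224 * 2 ^ A) := by
    have := Real.add_one_le_exp (c₁ / 224 * 2 ^ A)
    linarith
  have h6 : Real.exp (-(c₁ / 224 * 2 ^ A)) = Real.exp (c₁ / 224 * 2 ^ A) * Real.exp (-y) := by
    rw [← Real.exp_add, hy]
    ring_nf
  rw [h6]
  have h7 := Real.exp_pos (-y)
  nlinarith

end Pool.Agent.TP.H94
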