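import Pool.Agent.Helper28_TP.DyS

/-!
# Module PRC: percolation of the continuum graph gives percolation of cells
-/

set_option autoImplicit false

namespace Pool.Agent.TP.H94

open MeasureTheory ProbabilityTheory

theorem prob_step (k : ℕ) (s : ℝ) : IsProbabilityMeasure (stepLaw k s) := by
  unfold stepLaw; infer_instance

theorem prob_unif1 : IsProbabilityMeasure ((volume : Measure ℝ).restrict (Set.Ico (0 : ℝ) 1)) :=
  ⟨by simp⟩

theorem prob_unif (k : ℕ) : IsProbabilityMeasure (unif k) := by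
  have := prob_unif1
  unfold unif; infer_instance

theorem prob_walk (k : ℕ) (s : ℝ) : IsProbabilityMeasure (walkLaw k s) := by
  have := prob_step k s
  unfold walkLaw; infer_instance

theorem prob_mark (k : ℕ) (s : ℝ) : IsProbabilityMeasure (markLaw k s) := by
  have := prob_unif k
  have := prob_walk k s
  unfold markLaw; infer_instance

theorem prob_cell (k : ℕ) (lam s : ℝ) :
    IsProbabilityMeasure ((poissonMeasure (Real.toNNReal lam)).prod
      (Measure.infinitePi (fun _ : ℕ => markLaw k s))) := by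
  have := prob_mark k s
  infer_instance

theorem prob_conf (k : ℕ) (lam s : ℝ) : IsProbabilityMeasure (confLaw k lam s) := by
  have := prob_cell k lam s
  unfold confLaw; infer_instance

/-- Almost surely all nodes lie in their cells. -/
theorem ae_unit (k : ℕ) (lam s : ℝ) : ∀ᵐ ω ∂(confLaw k lam s),
    ∀ (z : Pt k) (j : ℕ) (a : Fin (k + 2)), ((ω z).2 j).1 a ∈ Set.Ico (0 : ℝ) 1 := by
  rw [ae_all_iff]; intro z
  rw [ae_all_iff]; intro j
  rw [ae_all_iff]; intro a
  have i1 := prob_unif1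
  have i2 := prob_unif k
  have i3 := prob_walk k s
  have i4 := prob_mark k s
  have i5 := prob_cell k lam s
  have h1 : MeasurePreserving (fun ω : Cf k => ω z) (confLaw k lam s)
      ((poissonMeasure (Real.toNNReal lam)).prod (Measure.infinitePi (fun _ : ℕ => markLaw k s))) :=
    measurePreserving_eval_infinitePi _ z
  have h2 : MeasurePreserving (Prod.snd) ((poissonMeasure (Real.toNNReal lam)).prod
      (Measure.infinitePi (fun _ : ℕ => markLaw k s)))
      (Measure.infinitePi (fun _ : ℕ => markLaw k s)) := measurePreserving_snd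
  have h3 : MeasurePreserving (fun m : ℕ → Mk k => m j)
      (Measure.infinitePi (fun _ : ℕ => markLaw k s)) (markLaw k s) :=
    measurePreserving_eval_infinitePi _ j
  have h4 : MeasurePreserving (Prod.fst) (markLaw k s) (unif k) := measurePreserving_fst
  have h5 : MeasurePreserving (fun x : Sp k => x a) (unif k)
      ((volume : Measure ℝ).restrict (Set.Ico (0 : ℝ) 1)) := measurePreserving_eval _ a
  have h := h5.comp (h4.comp (h3.comp (h2.comp h1)))
  exact h.quasiMeasurePreserving.ae (ae_restrict_mem measurableSet_Ico)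

/-- The cell of side `1 / M` of a point. -/
noncomputable def cl {k : ℕ} (M : ℕ) (x : Sp k) : Pt k := fun a => ⌊x a * M⌋

theorem mem_cel_iff {k : ℕ} {M : ℕ} (hM : 1 ≤ M) (x : Sp k) (c : Pt k) :
    x ∈ cel (1 / (M : ℝ)) 0 c ↔ cl M x = c := by
  have hM' : (0 : ℝ) < M := by exact_mod_cast hM
  unfold cel cube cl
  simp only [Set.mem_ofPred_eq, Pi.zero_apply, zero_add]
  rw [funext_iff]
  refine forall_congr' fun a => ?_
  rw [Int.floor_eq_iff]
  have e1 : 1 / (M : ℝ) * (c a : ℝ) ≤ x a ↔ (c a : ℝ) ≤ x a * M := by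
    rw [one_div, inv_mul_le_iff₀ hM', mul_comm]
  have e2 : x a < 1 / (M : ℝ) * (c a : ℝ) + 1 / M ↔ x a * M < c a + 1 := by
    have : 1 / (M : ℝ) * (c a : ℝ) + 1 / M = ((c a : ℝ) + 1) / M := by ring
    rw [this, lt_div_iff₀ hM']
  rw [e1, e2]

/-- Cells of near points are neighbours. -/
theorem cl_sub {k : ℕ} {r b : ℝ} {M : ℕ} (hr : 0 < r) (hb : 0 < b) (hM : 1 ≤ M)
    (hbr : b * r + 2 * Real.sqrt (k + 2) * (b / M) ≤ r) {x y : Sp k} (h : near r x y) :
    cl M y - cl M x ∈ Nb k r (b / M) := by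
  have hM' : (0 : ℝ) < M := by exact_mod_cast hM
  have hbM : 0 < b / M := div_pos hb hM'
  have key : ∑ a, ((|(cl M y - cl M x) a| + 1 : ℤ) * (b / M)) ^ 2 ≤ r ^ 2 := by
    unfold near at h
    have h1 : ∀ a, ((|(cl M y - cl M x) a| + 1 : ℤ) : ℝ) * (b / M) ≤
        b * |x a - y a| + 2 * (b / M) := by
      intro a
      have f1 := Int.floor_le (x a * M)
      have f2 := Int.lt_floor_add_one (x a * M)
      have f3 := Int.floor_le (y a * M)
      have f4 := Int.lt_floor_add_one (y a * M)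
      have h2 : (|((cl M y - cl M x) a : ℤ)| : ℝ) ≤ |x a - y a| * M + 1 := by
        simp only [cl, Pi.sub_apply]
        push_cast
        have h3 : |x a - y a| * M = |x a * M - y a * M| := by
          rw [← sub_mul, abs_mul, abs_of_pos hM']
        rw [h3, abs_le]
        constructor
        · have := le_abs_self (x a * M - y a * M)
          linarith
        · have := neg_abs_le (x a * M - y a * M)
          linarith
      push_cast at h2 ⊢
      have h4 : b * |x a - y a| + 2 * (b / M) = (|x a - y a| * M + 1 + 1) * (b / M) := by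
        field_simp
        ring
      rw [h4]
      exact mul_le_mul_of_nonneg_right (by linarith) hbM.le
    have h0 : ∀ a, 0 ≤ ((|(cl M y - cl M x) a| + 1 : ℤ) : ℝ) * (b / M) := fun a =>
      mul_nonneg (by exact_mod_cast (by positivity : (0:ℤ) ≤ |(cl M y - cl M x) a| + 1)) hbM.le
    set d : ℝ := (k : ℝ) + 2 with hd
    have hd0 : 0 < d := by positivity
    have hS : (∑ a, |x a - y a|) ^ 2 ≤ d * ∑ a, (x a - y a) ^ 2 := by
      have := sq_sum_le_card_mul_sum_sq (s := Finset.univ) (f := fun a => |x a - y a|)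
      simp only [sq_abs, Finset.card_univ, Fintype.card_fin] at this
      rw [hd]
      exact_mod_cast this
    have hS2 : ∑ a, |x a - y a| ≤ Real.sqrt d * r := by
      have h5 : (∑ a, |x a - y a|) ^ 2 ≤ (Real.sqrt d * r) ^ 2 := by
        rw [mul_pow, Real.sq_sqrt hd0.le]
        nlinarith
      exact abs_le_of_sq_le_sq' h5 (by positivity) |>.2
    have h6 : ∑ a, ((|(cl M y - cl M x) a| + 1 : ℤ) * (b / M)) ^ 2 ≤
        ∑ a : Fin (k + 2), (b * |x a - y a| + 2 * (b / M)) ^ 2 :=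
      Finset.sum_le_sum fun a _ => pow_le_pow_left₀ (h0 a) (h1 a) 2
    have h7 : ∑ a : Fin (k + 2), (b * |x a - y a| + 2 * (b / M)) ^ 2 =
        b ^ 2 * ∑ a, (x a - y a) ^ 2 + 4 * b * (b / M) * ∑ a, |x a - y a| +
          d * (4 * (b / M) ^ 2) := by
      have h8 : ∀ a : Fin (k + 2), (b * |x a - y a| + 2 * (b / M)) ^ 2 =
          b ^ 2 * (x a - y a) ^ 2 + 4 * b * (b / M) * |x a - y a| + 4 * (b / M) ^ 2 := by
        intro a
        rw [← sq_abs (x a - y a)]
        ring
      rw [Finset.sum_congr rfl fun a _ => h8 a, Finset.sum_add_distrib, Finset.sum_add_distrib,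
        ← Finset.mul_sum, ← Finset.mul_sum, Finset.sum_const, Finset.card_univ, Fintype.card_fin,
        nsmul_eq_mul, hd]
      push_cast
      ring
    have h9 : b ^ 2 * ∑ a, (x a - y a) ^ 2 + 4 * b * (b / M) * ∑ a, |x a - y a| +
          d * (4 * (b / M) ^ 2) ≤ (b * r + 2 * Real.sqrt d * (b / M)) ^ 2 := by
      have e : (b * r + 2 * Real.sqrt d * (b / M)) ^ 2 = b ^ 2 * r ^ 2 +
          4 * b * (b / M) * (Real.sqrt d * r) + (Real.sqrt d) ^ 2 * (4 * (b / M) ^ 2) := by ring
      rw [e, Real.sq_sqrt hd0.le]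
      have e1 : b ^ 2 * ∑ a, (x a - y a) ^ 2 ≤ b ^ 2 * r ^ 2 :=
        mul_le_mul_of_nonneg_left h (by positivity)
      have e2 : 4 * b * (b / M) * ∑ a, |x a - y a| ≤ 4 * b * (b / M) * (Real.sqrt d * r) :=
        mul_le_mul_of_nonneg_left hS2 (by positivity)
      linarith
    have h10 : (b * r + 2 * Real.sqrt d * (b / M)) ^ 2 ≤ r ^ 2 :=
      pow_le_pow_left₀ (by positivity) hbr 2
    linarith
  unfold Nb
  rw [Finset.mem_filter]
  refine ⟨?_, key⟩
  rw [mem_bx]
  intro a
  have h1 : (((|(cl M y - cl M x) a| + 1 : ℤ) : ℝ) * (b / M)) ^ 2 ≤ r ^ 2 :=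
    le_trans (Finset.single_le_sum (f := fun a =>
      (((|(cl M y - cl M x) a| + 1 : ℤ) : ℝ) * (b / M)) ^ 2) (fun _ _ => sq_nonneg _)
      (Finset.mem_univ a)) key
  have h2 : ((|(cl M y - cl M x) a| + 1 : ℤ) : ℝ) * (b / M) ≤ r :=
    (abs_le_of_sq_le_sq' h1 hr.le).2
  have h3 : ((|(cl M y - cl M x) a| + 1 : ℤ) : ℝ) ≤ r / (b / M) := by
    rw [le_div_iff₀ hbM]; exact h2
  have h4 : ((|(cl M y - cl M x) a| + 1 : ℤ) : ℝ) ≤ ⌈r / (b / M)⌉₊ := h3.trans (Nat.le_ceil _)
  have h5 : |(cl M y - cl M x) a| + 1 ≤ (⌈r / (b / M)⌉₊ : ℤ) := by exact_mod_cast h4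
  have h6 : (cl M y - cl M x) a - (0 : Pt k) a = (cl M y - cl M x) a := by simp
  rw [h6]
  linarith

theorem pos_zero {k : ℕ} (ω : Cf k) (v : Pt k × ℕ) :
    pos ω 0 v = fun a => (v.1 a : ℝ) + ((ω v.1).2 v.2).1 a := by
  unfold pos walk
  funext a
  simp

theorem conn_of_reach {k : ℕ} {r b : ℝ} {M : ℕ} (hr : 0 < r) (hb : 0 < b) (hM : 1 ≤ M)
    (hbr : b * r + 2 * Real.sqrt (k + 2) * (b / M) ≤ r) (ω : Cf k) {v u : Pt k × ℕ}
    (h : (graphAt r ω 0).Reachable v u) :
    Conn (Nb k r (b / M)) (occ (1 / (M : ℝ)) 0 0 ω) (cl M (pos ω 0 v)) (cl M (pos ω 0 u)) ∧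
      (u ≠ v → alive ω u) := by
  rw [SimpleGraph.reachable_iff_reflTransGen] at h
  induction h with
  | refl => exact ⟨Relation.ReflTransGen.refl, fun h => absurd rfl h⟩
  | @tail u w _ hadj ih =>
    unfold graphAt geo at hadj
    rw [SimpleGraph.fromRel_adj] at hadj
    obtain ⟨hne, hadj⟩ := hadj
    have h1 : alive ω u ∧ alive ω w ∧ near r (pos ω 0 u) (pos ω 0 w) := by
      rcases hadj with h1 | h1
      · exact h1
      · refine ⟨h1.2.1, h1.1, ?_⟩
        have := h1.2.2
        unfold near at this ⊢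
        refine le_trans (le_of_eq ?_) this
        exact Finset.sum_congr rfl fun a _ => by ring
    refine ⟨ih.1.tail ⟨cl_sub hr hb hM hbr h1.2.2, ?_⟩, fun _ => h1.2.1⟩
    exact ⟨w, h1.2.1, (mem_cel_iff hM _ _).2 rfl⟩

theorem finite_cell {k : ℕ} {M : ℕ} (hM : 1 ≤ M) (ω : Cf k)
    (hω : ∀ (z : Pt k) (j : ℕ) (a : Fin (k + 2)), ((ω z).2 j).1 a ∈ Set.Ico (0 : ℝ) 1)
    (c : Pt k) : {u : Pt k × ℕ | alive ω u ∧ cl M (pos ω 0 u) = c}.Finite := by
  have hM' : (1 : ℝ) ≤ M := by exact_mod_cast hM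
  refine Set.Finite.subset ((Set.finite_Icc (fun a => -(|c a| + 1)) (fun a => |c a| + 1)).biUnion
    (fun z _ => (Set.finite_lt_nat (ω z).1).image (fun j => (z, j)))) ?_
  rintro ⟨z, j⟩ ⟨hal, hc⟩
  simp only [Set.mem_iUnion]
  have hz : ∀ a, |z a| ≤ |c a| + 1 := by
    intro a
    have h1 : ⌊pos ω 0 (z, j) a * M⌋ = c a := congrFun hc a
    rw [Int.floor_eq_iff, pos_zero] at h1
    simp only at h1
    obtain ⟨h2, h3⟩ := hω z j a
    have h5 : (c a : ℝ) ≤ |(c a : ℝ)| := le_abs_self _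
    have h6 : -|(c a : ℝ)| ≤ (c a : ℝ) := neg_abs_le _
    have h7 := abs_nonneg (c a : ℝ)
    set t : ℝ := (z a : ℝ) with ht
    set m : ℝ := ((ω z).2 j).1 a with hm
    have h8 : |t| ≤ |(c a : ℝ)| + 1 := by
      rw [abs_le]
      constructor
      · by_contra hcon
        push Not at hcon
        have : (t + m) * M < -|(c a : ℝ)| := by
          have e1 : t + m < -|(c a : ℝ)| := by linarith
          have e2 : (t + m) * M ≤ (t + m) * 1 :=
            mul_le_mul_of_nonpos_left hM' (by linarith)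
          linarith
        linarith [h1.1]
      · by_contra hcon
        push Not at hcon
        have : |(c a : ℝ)| + 1 < (t + m) * M := by
          have e1 : |(c a : ℝ)| + 1 < t + m := by linarith
          have e2 : (t + m) * 1 ≤ (t + m) * M :=
            mul_le_mul_of_nonneg_left hM' (by linarith)
          linarith
        linarith [h1.2]
    rw [ht] at h8
    exact_mod_cast h8
  refine ⟨z, ?_, j, hal, rfl⟩
  rw [Set.mem_Icc]
  exact ⟨fun a => by linarith [(abs_le.1 (hz a)).1], fun a => (abs_le.1 (hz a)).2⟩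

theorem infinite_conn {k : ℕ} {r b : ℝ} {M : ℕ} (hr : 0 < r) (hb : 0 < b) (hM : 1 ≤ M)
    (hbr : b * r + 2 * Real.sqrt (k + 2) * (b / M) ≤ r) (ω : Cf k)
    (hω : ∀ (z : Pt k) (j : ℕ) (a : Fin (k + 2)), ((ω z).2 j).1 a ∈ Set.Ico (0 : ℝ) 1)
    {v : Pt k × ℕ} (h : InInf (graphAt r ω 0) v) :
    {c | Conn (Nb k r (b / M)) (occ (1 / (M : ℝ)) 0 0 ω) (cl M (pos ω 0 v)) c}.Infinite := by
  intro hfin
  apply h
  refine Set.Finite.subset ((Set.finite_singleton v).union (hfin.biUnion
    (fun c _ => finite_cell hM ω hω c))) ?_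
  intro u hu
  have h1 := conn_of_reach hr hb hM hbr ω hu
  by_cases huv : u = v
  · exact Or.inl huv
  · refine Or.inr ?_
    simp only [Set.mem_iUnion]
    exact ⟨cl M (pos ω 0 u), h1.1, h1.2 huv, rfl⟩

theorem exit_point {k : ℕ} {N : Finset (Pt k)} {ρ : ℕ} (hN : GoodN N ρ) {O : Set (Pt k)}
    {x y : Pt k} (n : ℕ) (h : Conn N O x y) (hy : y ∉ bx x n) :
    ∃ y' ∈ bx x (n + ρ) \ bx x n, Conn N (O ∩ ↑(bx x (n + ρ))) x y' := by
  have key : (y ∈ bx x n ∧ Conn N (O ∩ ↑(bx x (n + ρ))) x y) ∨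
      ∃ y' ∈ bx x (n + ρ) \ bx x n, Conn N (O ∩ ↑(bx x (n + ρ))) x y' := by
    clear hy
    induction h with
    | refl =>
      left
      refine ⟨mem_bx.2 fun i => by simp, Relation.ReflTransGen.refl⟩
    | @tail u w _ hs ih =>
      rcases ih with ⟨hu, hc⟩ | h'
      · have hw : w ∈ bx x (n + ρ) := by
          rw [mem_bx] at hu ⊢
          intro i
          have h1 := hu i
          have h2 := hN.bd _ hs.1 i
          simp only [Pi.sub_apply] at h2
          push_cast
          calc |w i - x i| = |(w i - u i) + (u i - x i)| := by ring_nf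
            _ ≤ |w i - u i| + |u i - x i| := abs_add_le _ _
            _ ≤ n + ρ := by linarith
        have hc' : Conn N (O ∩ ↑(bx x (n + ρ))) x w := hc.tail ⟨hs.1, hs.2, hw⟩
        by_cases hwn : w ∈ bx x n
        · exact Or.inl ⟨hwn, hc'⟩
        · exact Or.inr ⟨w, Finset.mem_sdiff.2 ⟨hw, hwn⟩, hc'⟩
      · exact Or.inr h'
  rcases key with ⟨h1, _⟩ | h1
  · exact absurd h1 hy
  · exact h1

theorem conn_translate {k : ℕ} {N : Finset (Pt k)} {A : Finset (Pt k)} {c x y : Pt k}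
    (h : Conn N ↑(A.map (addLeftEmbedding c)) (c + x) y) :
    Conn N ↑A x (y - c) := by
  induction h with
  | refl =>
    have : c + x - c = x := by abel
    rw [this]
    exact Relation.ReflTransGen.refl
  | @tail u w _ hs ih =>
    refine ih.tail ⟨?_, ?_⟩
    · have : w - c - (u - c) = w - u := by abel
      rw [this]; exact hs.1
    · have h2 := hs.2
      simp only [Finset.coe_map, Set.mem_image, addLeftEmbedding_apply, Finset.mem_coe] at h2
      obtain ⟨a, ha, rfl⟩ := h2
      have : c + a - c = a := by abel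
      rw [this]; exact ha

/-- **PRC.** -/
theorem prc (hstat : StatStmt) : PrcStmt := by
  classical
  intro k r lam b M hr hlam hb hM hbr hperc ρ hN
  have hM' : (0 : ℝ) < M := by exact_mod_cast hM
  set P := confLaw k lam 0 with hP
  have iP : IsProbabilityMeasure P := prob_conf k lam 0
  -- a node and a cell
  have h1 : ∃ (v : Pt k × ℕ) (c : Pt k),
      P {ω | InInf (graphAt r ω 0) v ∧ cl M (pos ω 0 v) = c} ≠ 0 := by
    by_contra hcon
    push Not at hcon
    apply hperc
    have : {ω : Cf k | ∃ v, InInf (graphAt r ω 0) v} ⊆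
        ⋃ (v : Pt k × ℕ), ⋃ (c : Pt k), {ω | InInf (graphAt r ω 0) v ∧ cl M (pos ω 0 v) = c} := by
      rintro ω ⟨v, hv⟩
      simp only [Set.mem_iUnion]
      exact ⟨v, cl M (pos ω 0 v), hv, rfl⟩
    refine measure_mono_null this ?_
    rw [measure_iUnion_null_iff]
    intro v
    rw [measure_iUnion_null_iff]
    intro c
    exact hcon v c
  obtain ⟨v, c, hvc⟩ := h1
  refine ⟨P.real {ω | InInf (graphAt r ω 0) v ∧ cl M (pos ω 0 v) = c}, ?_, ?_⟩
  · rw [Measure.real, ENNReal.toReal_pos_iff]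
    exact ⟨pos_iff_ne_zero.2 hvc, measure_lt_top _ _⟩
  intro n
  set N := Nb k r (b / M) with hNdef
  set E : Finset (Pt k) → Prop := fun A => ∃ y ∈ bx c (n + ρ) \ bx c n, Conn N ↑A c y with hE
  have h2 := hstat k lam 0 (1 / (M : ℝ)) hlam.le (by positivity) 0 0 (bx c (n + ρ)) E
  have h3 : lam * (1 / (M : ℝ)) ^ (k + 2) = lam / M ^ (k + 2) := by
    rw [one_div, inv_pow]; ring
  rw [h3] at h2
  have h4 : P.real {ω | InInf (graphAt r ω 0) v ∧ cl M (pos ω 0 v) = c} ≤
      PS (bx c (n + ρ)) (fun _ => 1 - Real.exp (-(lam / M ^ (k + 2)))) E := by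
    rw [← h2]
    refine ENNReal.toReal_mono (measure_ne_top _ _) (measure_mono_ae ?_)
    filter_upwards [ae_unit k lam 0] with ω hω
    rintro ⟨hinf, hc⟩
    have h5 := infinite_conn hr hb hM hbr ω hω hinf
    rw [hc] at h5
    obtain ⟨y, hy, hyn⟩ := h5.exists_notMem_finset (bx c n)
    obtain ⟨y', hy', hc'⟩ := exit_point hN n hy hyn
    refine ⟨y', hy', ?_⟩
    have h6 : (↑((bx c (n + ρ)).filter (fun c => c ∈ occ (1 / (M : ℝ)) 0 0 ω)) : Set (Pt k)) =
        occ (1 / (M : ℝ)) 0 0 ω ∩ ↑(bx c (n + ρ)) := by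
      ext x
      simp only [Finset.coe_filter, Set.mem_ofPred_eq, Set.mem_inter_iff, Finset.mem_coe]
      tauto
    rw [h6]
    exact hc'
  refine h4.trans ?_
  have h7 : bx c (n + ρ) = (bx (0 : Pt k) (n + ρ)).map (addLeftEmbedding c) := by
    ext x
    simp only [Finset.mem_map, addLeftEmbedding_apply, mem_bx]
    constructor
    · intro hx
      refine ⟨x - c, fun i => ?_, by abel⟩
      have := hx i
      simpa using this
    · rintro ⟨y, hy, rfl⟩ i
      have := hy i
      simpa using this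
  have hU : U01 (bx (0 : Pt k) (n + ρ)) (fun _ => 1 - Real.exp (-(lam / M ^ (k + 2)))) := by
    intro a _
    have e1 : Real.exp (-(lam / M ^ (k + 2))) ≤ 1 := by
      rw [Real.exp_le_one_iff]
      have : 0 ≤ lam / (M : ℝ) ^ (k + 2) := by positivity
      linarith
    have e2 := Real.exp_pos (-(lam / (M : ℝ) ^ (k + 2)))
    constructor <;> linarith
  rw [h7, PS_map]
  refine PS_mono hU fun A _ hA => ?_
  obtain ⟨y, hy, hc⟩ := hA
  refine ⟨y - c, ?_, ?_⟩
  · rw [Finset.mem_sdiff, mem_bx, mem_bx] at hy ⊢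
    simpa using hy
  · have h8 : c = c + 0 := by simp
    have h9 : Conn N ↑(A.map (addLeftEmbedding c)) (c + 0) y := by
      rw [← h8]; exact hc
    exact conn_translate h9

end Pool.Agent.TP.H94
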